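import Pool.Agent.Y471.SQ3.Cluster

/-!
# Numbers with very good approximations whose denominators are powers of four

`α = ∑_j 4^{-m_j}` with `m_{j+1} = 2 m_j + e_j`, `e_j = ⌊ρ m_j⌋ + E + 1`, `m_0 = E`, where
`0 < ρ` and `1 ≤ ρ E`. It is of type `2 + ρ`.
-/

set_option autoImplicit false

namespace Pool.Agent.H364_TC

open Filter Topology
open Pool.Agent.Results.MP_ba281e_nt.NoPoissonSubseq (x corr IsOfType PoissonianAlong tail_bounds
  tail_bounds')

/-- the parameters -/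
structure Par where
  rho : ℝ
  E : ℕ
  rho_pos : 0 < rho
  rhoE : 1 ≤ rho * E

namespace Par

variable (P : Par)

lemma E_pos : 1 ≤ P.E := by
  by_contra h
  have h0 : P.E = 0 := by omega
  have := P.rhoE
  rw [h0] at this
  norm_num at this

/-- exponents `m_j` -/
noncomputable def mm : ℕ → ℕ
  | 0 => P.E
  | j + 1 => 2 * mm j + (⌊P.rho * (mm j : ℝ)⌋₊ + P.E + 1)

/-- exponents `e_j` -/
noncomputable def ee (j : ℕ) : ℕ := ⌊P.rho * (P.mm j : ℝ)⌋₊ + P.E + 1

noncomputable def qq (j : ℕ) : ℤ := 4 ^ P.mm j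

noncomputable def cc (j : ℕ) : ℤ := 4 ^ P.ee j

noncomputable def aa : ℕ → ℤ
  | 0 => 1
  | j + 1 => P.cc j * aa j * P.qq j + 1

/-- the constants in the approximation lemma -/
noncomputable def gg : ℕ → ℤ
  | 0 => 4 ^ P.E
  | j + 1 => P.cc j

lemma mm_succ (j : ℕ) : P.mm (j + 1) = 2 * P.mm j + P.ee j := rfl

lemma qq_succ (j : ℕ) : P.qq (j + 1) = P.cc j * P.qq j ^ 2 := by
  unfold qq cc
  rw [mm_succ, pow_add, mul_comm 2, pow_mul]
  ring

lemma aa_succ (j : ℕ) : P.aa (j + 1) = P.cc j * P.aa j * P.qq j + 1 := rfl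

lemma qq_pos (j : ℕ) : 0 < P.qq j := by unfold qq; positivity

lemma cc_pos (j : ℕ) : 0 < P.cc j := by unfold cc; positivity

lemma coprime_aa : ∀ j, IsCoprime (P.aa j) (P.qq j)
  | 0 => isCoprime_one_left
  | j + 1 => by
    refine ⟨1 - P.cc j * P.aa j * P.qq j, P.cc j * P.aa j ^ 2, ?_⟩
    rw [qq_succ, aa_succ]
    ring

lemma E_le_mm : ∀ j, P.E ≤ P.mm j
  | 0 => le_rfl
  | j + 1 => by
    have := E_le_mm j
    rw [mm_succ]
    omega

lemma mm_add_le (j : ℕ) : P.mm j + P.E ≤ P.mm (j + 1) := by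
  have := P.E_le_mm j
  rw [mm_succ]
  omega

lemma ee_succ_ge (j : ℕ) : P.ee j + 1 ≤ P.ee (j + 1) := by
  have h := P.mm_add_le j
  have h1 : (P.mm j : ℝ) + P.E ≤ P.mm (j + 1) := by exact_mod_cast h
  have h2 : P.rho * (P.mm j : ℝ) + 1 ≤ P.rho * (P.mm (j + 1) : ℝ) := by
    have h3 := mul_le_mul_of_nonneg_left h1 P.rho_pos.le
    have h4 := P.rhoE
    rw [mul_add] at h3
    linarith
  have h3 : ⌊P.rho * (P.mm j : ℝ)⌋₊ + 1 ≤ ⌊P.rho * (P.mm (j + 1) : ℝ)⌋₊ := by
    rw [← Nat.floor_add_one (mul_nonneg P.rho_pos.le (Nat.cast_nonneg _))]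
    exact Nat.floor_le_floor h2
  unfold ee
  omega

lemma gg_pos : ∀ j, 0 < P.gg j
  | 0 => by unfold gg; positivity
  | j + 1 => P.cc_pos j

lemma four_gg_le : ∀ j, 4 * P.gg j ≤ P.cc j
  | 0 => by
    show 4 * (4 : ℤ) ^ P.E ≤ 4 ^ (P.ee 0)
    rw [← pow_succ']
    refine pow_le_pow_right₀ (by norm_num) ?_
    unfold ee
    omega
  | j + 1 => by
    show 4 * P.cc j ≤ P.cc (j + 1)
    unfold cc
    rw [← pow_succ']
    exact pow_le_pow_right₀ (by norm_num) (P.ee_succ_ge j)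

lemma one_le_cc (j : ℕ) : 1 ≤ P.cc j := P.cc_pos j

/-- The key approximation property of `a_j / q_j`. -/
lemma key : ∀ j : ℕ, ∀ q p : ℤ, q ≠ 0 → |q| < P.qq j →
    P.qq j ≤ P.gg j * (|q| * |q * P.aa j - p * P.qq j|)
  | 0 => by
    intro q p hq hlt
    have h1 : (1 : ℤ) ≤ |q| := Int.one_le_abs hq
    have h2 : (1 : ℤ) ≤ |q * P.aa 0 - p * P.qq 0| := by
      apply Int.one_le_abs
      intro h
      have h3 : P.qq 0 ∣ q := ⟨p, by simp [aa] at h; linarith⟩
      have := Int.le_of_dvd (abs_pos.mpr hq) ((dvd_abs _ _).mpr h3)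
      omega
    have h3 : (1 : ℤ) ≤ |q| * |q * P.aa 0 - p * P.qq 0| := by nlinarith
    have h4 : P.gg 0 = P.qq 0 := rfl
    rw [h4]
    have := P.qq_pos 0
    nlinarith
  | j + 1 => by
    intro q p hq hlt
    have IH := key j
    have hQ := P.qq_pos j
    have hC := P.one_le_cc j
    have hG := P.gg_pos j
    have hGC := P.four_gg_le j
    set Q := P.qq j with hQdef
    set A := P.aa j with hAdef
    set C := P.cc j with hCdef
    set G := P.gg j with hGdef
    have hqs : P.qq (j + 1) = C * Q ^ 2 := P.qq_succ j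
    have has : P.aa (j + 1) = C * A * Q + 1 := P.aa_succ j
    have hgs : P.gg (j + 1) = C := rfl
    rw [hqs] at hlt
    rw [hqs, has, hgs]
    set t := q * A - p * Q with ht
    have hr : q * (C * A * Q + 1) - p * (C * Q ^ 2) = q + C * Q * t := by rw [ht]; ring
    rw [hr]
    set r := q + C * Q * t with hrdef
    have hqa : (1 : ℤ) ≤ |q| := Int.one_le_abs hq
    have hcop := P.coprime_aa j
    rw [← hQdef, ← hAdef] at hcop
    suffices h : Q ^ 2 ≤ |q| * |r| by
      have h0 : 0 ≤ |q| * |r| := by positivity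
      nlinarith
    have hG1 : (1 : ℤ) ≤ G := hG
    by_cases ht0 : t = 0
    · have hr' : r = q := by rw [hrdef, ht0]; ring
      rw [hr']
      have hdvd : Q ∣ q := by
        have : Q ∣ q * A := ⟨p, by rw [ht] at ht0; linarith⟩
        exact hcop.symm.dvd_of_dvd_mul_right this
      have : Q ≤ |q| := Int.le_of_dvd (abs_pos.mpr hq) ((dvd_abs _ _).mpr hdvd)
      nlinarith
    · have ht1 : (1 : ℤ) ≤ |t| := Int.one_le_abs ht0
      have hCQ : 0 < C * Q := by positivity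
      have hCQt : |C * Q * t| = C * Q * |t| := by rw [abs_mul, abs_of_pos hCQ]
      by_cases hbig : 2 * |q| ≤ C * Q
      · have hr1 : C * Q * |t| - |q| ≤ |r| := by
          have h1 := abs_sub_abs_le_abs_sub (C * Q * t) (-q)
          rw [abs_neg, hCQt] at h1
          have h2 : C * Q * t - -q = r := by rw [hrdef]; ring
          rwa [h2] at h1
        have hr2 : C * Q * |t| ≤ 2 * |r| := by nlinarith
        by_cases hqQ : |q| < Q
        · have h1 := IH q p hq hqQ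
          rw [← ht] at h1
          have h2 : C * Q * |t| * |q| ≤ 2 * |r| * |q| :=
            mul_le_mul_of_nonneg_right hr2 (abs_nonneg _)
          have h3 : 4 * G * (Q * (|t| * |q|)) ≤ C * (Q * (|t| * |q|)) :=
            mul_le_mul_of_nonneg_right hGC (by positivity)
          have h4 : Q * Q ≤ Q * (G * (|q| * |t|)) := mul_le_mul_of_nonneg_left h1 hQ.le
          nlinarith
        · push Not at hqQ
          have h1 : C * Q ≤ 2 * |r| := by nlinarith
          have h2 : Q * (C * Q) ≤ |q| * (2 * |r|) :=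
            mul_le_mul hqQ h1 hCQ.le (abs_nonneg _)
          have h3 : 4 * (Q * Q) ≤ C * (Q * Q) :=
            mul_le_mul_of_nonneg_right (by linarith) (by positivity)
          nlinarith
      · push Not at hbig
        by_contra hcon
        push Not at hcon
        have hr0 : r ≠ 0 := by
          intro h0
          have h1 : C * Q ^ 2 ∣ q := by
            have h2 : IsCoprime (C * Q ^ 2) (C * A * Q + 1) := by
              have := P.coprime_aa (j + 1)
              rw [hqs, has] at this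
              exact this.symm
            have h3 : C * Q ^ 2 ∣ q * (C * A * Q + 1) := ⟨p, by rw [h0] at hr; linarith⟩
            exact h2.dvd_of_dvd_mul_right h3
          have := Int.le_of_dvd (abs_pos.mpr hq) ((dvd_abs _ _).mpr h1)
          omega
        have hr1 : (1 : ℤ) ≤ |r| := Int.one_le_abs hr0
        have hrQ : |r| < Q := by
          by_contra h
          push Not at h
          have h1 : (4 : ℤ) * Q ≤ C * Q := mul_le_mul_of_nonneg_right (by linarith) hQ.le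
          have h2 : 2 * Q ≤ |q| := by linarith
          have h3 : (2 * Q) * Q ≤ |q| * |r| := mul_le_mul h2 h hQ.le (abs_nonneg _)
          nlinarith
        have h1 := IH r (p + C * t * A) hr0 hrQ
        have h2 : r * A - (p + C * t * A) * Q = t := by rw [hrdef]; linarith
        rw [h2] at h1
        have h3 : C * Q * |t| - |r| ≤ |q| := by
          have h4 := abs_sub_abs_le_abs_sub (C * Q * t) r
          rw [hCQt] at h4
          have h5 : C * Q * t - r = -q := by rw [hrdef]; ring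
          rwa [h5, abs_neg] at h4
        have h4 : (C * Q * |t| - |r|) * |r| ≤ |q| * |r| :=
          mul_le_mul_of_nonneg_right h3 (abs_nonneg _)
        have h5 : 4 * G * (Q * (|t| * |r|)) ≤ C * (Q * (|t| * |r|)) :=
            mul_le_mul_of_nonneg_right hGC (by positivity)
        have h6 : Q * Q ≤ Q * (G * (|r| * |t|)) := mul_le_mul_of_nonneg_left h1 hQ.le
        have h7 : |r| * |r| ≤ Q * Q := mul_le_mul hrQ.le hrQ.le (abs_nonneg _) hQ.le
        nlinarith

/-! ### The number `α` -/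

/-- `α = ∑_j 4^{-m_j}` -/
noncomputable def alpha : ℝ := ∑' j : ℕ, (1 / (4 : ℝ)) ^ P.mm j

lemma mm_strict (j i : ℕ) : P.mm j + i ≤ P.mm (i + j) := by
  induction i with
  | zero => simp
  | succ i ih =>
    have h := P.mm_add_le (i + j)
    have hE := P.E_pos
    have : i + 1 + j = (i + j) + 1 := by ring
    rw [this]
    omega

lemma summable_alpha : Summable fun j : ℕ => (1 / (4 : ℝ)) ^ P.mm j := by
  refine Summable.of_nonneg_of_le (fun j => by positivity) (fun j => ?_)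
    (summable_geometric_of_lt_one (by norm_num) (by norm_num : (1 / (4 : ℝ)) < 1))
  have h := P.mm_strict 0 j
  exact pow_le_pow_of_le_one (by norm_num) (by norm_num) (by simp at h; omega)

lemma partial_sum : ∀ j : ℕ,
    ∑ i ∈ Finset.range (j + 1), (1 / (4 : ℝ)) ^ P.mm i = (P.aa j : ℝ) / (P.qq j : ℝ)
  | 0 => by simp [aa, qq]
  | j + 1 => by
    rw [Finset.sum_range_succ, partial_sum j]
    have h1 : (P.qq (j + 1) : ℝ) = (P.cc j : ℝ) * (P.qq j : ℝ) ^ 2 := by
      rw [qq_succ]; push_cast; ring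
    have h2 : (P.aa (j + 1) : ℝ) = (P.cc j : ℝ) * P.aa j * P.qq j + 1 := by
      rw [aa_succ]; push_cast; ring
    have h3 : (1 / (4 : ℝ)) ^ P.mm (j + 1) = 1 / (P.qq (j + 1) : ℝ) := by
      unfold qq; push_cast; rw [one_div_pow]
    rw [h3, h2, h1]
    have hq : (P.qq j : ℝ) ≠ 0 := by exact_mod_cast (P.qq_pos j).ne'
    have hc : (P.cc j : ℝ) ≠ 0 := by exact_mod_cast (P.cc_pos j).ne'
    field_simp

lemma alpha_bounds (j : ℕ) :
    0 < P.alpha - (P.aa j : ℝ) / (P.qq j : ℝ) ∧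
      P.alpha - (P.aa j : ℝ) / (P.qq j : ℝ) ≤ 2 / (P.qq (j + 1) : ℝ) := by
  have h3 : (P.qq (j + 1) : ℝ) = (4 : ℝ) ^ P.mm (j + 1) := by
    simp only [qq, Int.cast_pow, Int.cast_ofNat]
  rw [← partial_sum, h3]
  exact tail_bounds' P.mm P.summable_alpha j (fun i => P.mm_strict (j + 1) i)

/-- the approximation lower bound, first form -/
lemma approx_lower (j : ℕ) (q p : ℤ) (hq : 0 < q) (hlt : q < P.qq j) :
    1 / (2 * (P.gg j : ℝ) * (q : ℝ)) ≤ |(q : ℝ) * P.alpha - p| := by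
  have hkey := P.key j q p hq.ne' (by rwa [abs_of_pos hq])
  rw [abs_of_pos hq] at hkey
  have hkeyR : (P.qq j : ℝ) ≤ P.gg j * (q * |(q : ℝ) * P.aa j - p * P.qq j|) := by
    exact_mod_cast hkey
  have hQ : (0 : ℝ) < P.qq j := by exact_mod_cast P.qq_pos j
  have hG : (0 : ℝ) < P.gg j := by exact_mod_cast P.gg_pos j
  have hqR : (0 : ℝ) < q := by exact_mod_cast hq
  have hltR : (q : ℝ) < P.qq j := by exact_mod_cast hlt
  have hGC : 4 * (P.gg j : ℝ) ≤ P.cc j := by exact_mod_cast P.four_gg_le j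
  obtain ⟨hb1, hb2⟩ := P.alpha_bounds j
  have hqs : (P.qq (j + 1) : ℝ) = (P.cc j : ℝ) * (P.qq j : ℝ) ^ 2 := by
    rw [qq_succ]; push_cast; ring
  rw [hqs] at hb2
  set Q : ℝ := (P.qq j : ℝ)
  set G : ℝ := (P.gg j : ℝ)
  set C : ℝ := (P.cc j : ℝ)
  set A : ℝ := (P.aa j : ℝ)
  have h1 : 1 / (G * q) ≤ |(q : ℝ) * (A / Q) - p| := by
    have : (q : ℝ) * (A / Q) - p = (q * A - p * Q) / Q := by field_simp
    rw [this, abs_div, abs_of_pos hQ, div_le_div_iff₀ (by positivity) hQ]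
    linarith
  have h2 : |(q : ℝ) * (A / Q) - p| - |(q : ℝ) * P.alpha - p| ≤ q * (2 / (C * Q ^ 2)) := by
    have h3 := abs_sub_abs_le_abs_sub ((q : ℝ) * (A / Q) - p) ((q : ℝ) * P.alpha - p)
    have h4 : ((q : ℝ) * (A / Q) - p) - ((q : ℝ) * P.alpha - p) = -(q * (P.alpha - A / Q)) := by
      ring
    rw [h4, abs_neg, abs_of_pos (mul_pos hqR hb1)] at h3
    have h5 : q * (P.alpha - A / Q) ≤ q * (2 / (C * Q ^ 2)) :=
      mul_le_mul_of_nonneg_left hb2 hqR.le
    linarith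
  have h3 : (q : ℝ) * (2 / (C * Q ^ 2)) ≤ 1 / (2 * G * q) := by
    have hC : 0 < C := by linarith
    rw [mul_div_assoc', div_le_div_iff₀ (by positivity) (by positivity)]
    have h4 : (q : ℝ) * q ≤ Q * Q := mul_le_mul hltR.le hltR.le hqR.le hQ.le
    have h5 : 4 * G * (q * q) ≤ C * (Q * Q) := mul_le_mul hGC h4 (by positivity) hC.le
    nlinarith
  have h4 : 1 / (G * (q : ℝ)) = 1 / (2 * G * q) + 1 / (2 * G * q) := by
    field_simp; norm_num
  linarith

lemma lt_qq (q : ℤ) : ∃ j, q < P.qq j := by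
  refine ⟨q.toNat, ?_⟩
  have h1 := P.mm_strict 0 q.toNat
  have h2 : q.toNat < 4 ^ q.toNat := Nat.lt_pow_self (by norm_num)
  have h3 : 4 ^ q.toNat ≤ 4 ^ P.mm q.toNat :=
    Nat.pow_le_pow_right (by norm_num) (by simpa using (by omega : q.toNat ≤ P.mm (q.toNat + 0)))
  have h4 : q ≤ (q.toNat : ℤ) := Int.self_le_toNat q
  have h5 : ((4 ^ P.mm q.toNat : ℕ) : ℤ) = P.qq q.toNat := by unfold qq; push_cast; rfl
  rw [← h5]
  have : q.toNat < 4 ^ P.mm q.toNat := lt_of_lt_of_le h2 h3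
  omega

lemma approx_pos (q p : ℤ) (hq : 0 < q) : 0 < |(q : ℝ) * P.alpha - p| := by
  obtain ⟨j, hj⟩ := P.lt_qq q
  have h := P.approx_lower j q p hq hj
  have hG : (0 : ℝ) < P.gg j := by exact_mod_cast P.gg_pos j
  have hqR : (0 : ℝ) < q := by exact_mod_cast hq
  have : 0 < 1 / (2 * (P.gg j : ℝ) * (q : ℝ)) := by positivity
  linarith

lemma irrational_alpha : Irrational P.alpha := by
  rintro ⟨r, hr⟩
  have h := P.approx_pos r.den r.num (by exact_mod_cast r.pos)
  rw [← hr] at h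
  have h2 : ((r.den : ℤ) : ℝ) * (r : ℝ) - (r.num : ℝ) = 0 := by
    have : (r : ℝ) = (r.num : ℝ) / (r.den : ℝ) := by exact_mod_cast (Rat.num_div_den r).symm
    rw [this]
    have hd : (r.den : ℝ) ≠ 0 := by exact_mod_cast r.den_nz
    push_cast
    field_simp
    ring
  rw [h2] at h
  simp at h

/-- bound on the constants -/
lemma gg_bound (q : ℤ) (hq : 0 < q) :
    ∃ j, q < P.qq j ∧ (P.gg j : ℝ) ≤ 4 ^ (P.E + 1) * (q : ℝ) ^ P.rho := by
  have hex := P.lt_qq q
  have hqR : (1 : ℝ) ≤ q := by exact_mod_cast hq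
  classical
  refine ⟨Nat.find hex, Nat.find_spec hex, ?_⟩
  rcases hj : Nat.find hex with _ | i
  · have h1 : (1 : ℝ) ≤ (q : ℝ) ^ P.rho := Real.one_le_rpow hqR P.rho_pos.le
    have h2 : (P.gg 0 : ℝ) = 4 ^ P.E := by unfold gg; push_cast; rfl
    rw [h2, pow_succ]
    have : (0 : ℝ) < 4 ^ P.E := by positivity
    nlinarith
  · have h1 : ¬ (q < P.qq i) := Nat.find_min hex (by omega)
    push Not at h1
    have h2 : (P.gg (i + 1) : ℝ) = 4 ^ (P.E + 1) * 4 ^ (⌊P.rho * (P.mm i : ℝ)⌋₊) := by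
      have : P.gg (i + 1) = 4 ^ (⌊P.rho * (P.mm i : ℝ)⌋₊ + P.E + 1) := rfl
      rw [this]; push_cast; ring
    rw [h2]
    refine mul_le_mul_of_nonneg_left ?_ (by positivity)
    have h3 : (4 : ℝ) ^ (⌊P.rho * (P.mm i : ℝ)⌋₊) ≤ (4 : ℝ) ^ (P.rho * (P.mm i : ℝ)) := by
      rw [← Real.rpow_natCast]
      exact Real.rpow_le_rpow_of_exponent_le (by norm_num)
        (Nat.floor_le (mul_nonneg P.rho_pos.le (Nat.cast_nonneg _)))
    have h4 : (4 : ℝ) ^ (P.rho * (P.mm i : ℝ)) = ((4 : ℝ) ^ (P.mm i)) ^ P.rho := by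
      rw [mul_comm, Real.rpow_mul (by norm_num), Real.rpow_natCast]
    have h5 : ((P.qq i : ℤ) : ℝ) ≤ q := by exact_mod_cast h1
    have h6 : ((P.qq i : ℤ) : ℝ) = 4 ^ (P.mm i) := by unfold qq; push_cast; rfl
    rw [h6] at h5
    calc (4 : ℝ) ^ (⌊P.rho * (P.mm i : ℝ)⌋₊) ≤ ((4 : ℝ) ^ (P.mm i)) ^ P.rho := h3.trans h4.le
      _ ≤ (q : ℝ) ^ P.rho := Real.rpow_le_rpow (by positivity) h5 P.rho_pos.le

lemma type_alpha (κ : ℝ) (hκ : 2 + P.rho ≤ κ) : IsOfType κ P.alpha := by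
  refine ⟨1 / (2 * 4 ^ (P.E + 1)), by positivity, ?_⟩
  intro a q hq _
  have hq0 : (0 : ℤ) < q := hq
  obtain ⟨j, hj1, hj2⟩ := P.gg_bound q hq0
  have h := P.approx_lower j q a hq0 hj1
  have hqR : (1 : ℝ) ≤ q := by exact_mod_cast hq
  have hqR0 : (0 : ℝ) < q := by linarith
  have hG : (0 : ℝ) < P.gg j := by exact_mod_cast P.gg_pos j
  have h1 : |P.alpha - (a : ℝ) / q| = |(q : ℝ) * P.alpha - a| / q := by
    rw [eq_div_iff hqR0.ne']
    rw [← abs_of_pos hqR0, abs_of_pos hqR0]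
    nth_rewrite 2 [← abs_of_pos hqR0]
    rw [← abs_mul]
    field_simp
  rw [h1]
  have h2 : (q : ℝ) ^ (-κ) ≤ (q : ℝ) ^ (-(2 + P.rho)) :=
    Real.rpow_le_rpow_of_exponent_le hqR (by linarith)
  have h3 : (q : ℝ) ^ (-(2 + P.rho)) = 1 / ((q : ℝ) ^ P.rho * q * q) := by
    rw [Real.rpow_neg hqR0.le, Real.rpow_add hqR0, one_div]
    congr 1
    rw [Real.rpow_two]; ring
  have hX : (0 : ℝ) < (q : ℝ) ^ P.rho := by positivity
  calc 1 / (2 * 4 ^ (P.E + 1)) * (q : ℝ) ^ (-κ)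
      ≤ 1 / (2 * 4 ^ (P.E + 1)) * (1 / ((q : ℝ) ^ P.rho * q * q)) := by
        rw [← h3]; exact mul_le_mul_of_nonneg_left h2 (by positivity)
    _ = 1 / (2 * (4 ^ (P.E + 1) * (q : ℝ) ^ P.rho) * q) / q := by
        field_simp
    _ ≤ 1 / (2 * (P.gg j : ℝ) * (q : ℝ)) / q := by
        apply div_le_div_of_nonneg_right _ hqR0.le
        apply one_div_le_one_div_of_le (by positivity)
        exact mul_le_mul_of_nonneg_right (by linarith) hqR0.le
    _ ≤ |(q : ℝ) * P.alpha - a| / q := div_le_div_of_nonneg_right h hqR0.le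

end Par

end Pool.Agent.H364_TC
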