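import Pool.Agent.H364_TC.Arith

/-!
# Clusters at multiples of `2^{m_j}` and the divergence of the `k`-level correlation
-/

set_option autoImplicit false

namespace Pool.Agent.H364_TC

open Filter Topology
open Pool.Agent.Results.MP_ba281e_nt.NoPoissonSubseq (x corr IsOfType)

namespace Par

variable (P : Par)

/-- the cluster near `0` -/
lemma x_cluster (j u N : ℕ) (hN : 2 ≤ N) (δ : ℝ) (hδ1 : δ ≤ 1)
    (hu : 2 * (u : ℝ) ^ 2 * N ≤ δ * ((P.cc j : ℝ) * (P.qq j : ℝ))) :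
    0 ≤ x P.alpha (2 ^ P.mm j * u) ∧ x P.alpha (2 ^ P.mm j * u) ≤ δ / N := by
  refine ⟨Int.fract_nonneg _, ?_⟩
  obtain ⟨hb1, hb2⟩ := P.alpha_bounds j
  have hqs : (P.qq (j + 1) : ℝ) = (P.cc j : ℝ) * (P.qq j : ℝ) ^ 2 := by
    rw [qq_succ]; push_cast; ring
  rw [hqs] at hb2
  have hQ : (0 : ℝ) < P.qq j := by exact_mod_cast P.qq_pos j
  have hC : (0 : ℝ) < P.cc j := by exact_mod_cast P.cc_pos j
  have hq4 : (P.qq j : ℝ) = ((2 : ℝ) ^ P.mm j) ^ 2 := by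
    unfold qq
    push_cast
    rw [← pow_mul, mul_comm, pow_mul]
    norm_num
  have hNR : (2 : ℝ) ≤ N := by exact_mod_cast hN
  set θ : ℝ := (P.qq j : ℝ) * (P.alpha - (P.aa j : ℝ) / (P.qq j : ℝ)) with hθ
  have hθ0 : 0 < θ := mul_pos hQ hb1
  have hθ1 : θ ≤ 2 / ((P.cc j : ℝ) * P.qq j) := by
    have := mul_le_mul_of_nonneg_left hb2 hQ.le
    refine this.trans (le_of_eq ?_)
    field_simp
  have h1 : (((2 ^ P.mm j * u : ℕ) : ℝ)) ^ 2 * P.alpha =
      (u : ℝ) ^ 2 * θ + ((u ^ 2 * P.aa j : ℤ) : ℝ) := by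
    have : P.alpha = θ / P.qq j + (P.aa j : ℝ) / (P.qq j : ℝ) := by
      rw [hθ]; field_simp; ring
    rw [this]
    push_cast
    rw [mul_pow, ← hq4]
    field_simp
  have h2 : (u : ℝ) ^ 2 * θ ≤ δ / N := by
    have h3 : (u : ℝ) ^ 2 * θ ≤ u ^ 2 * (2 / ((P.cc j : ℝ) * P.qq j)) :=
      mul_le_mul_of_nonneg_left hθ1 (by positivity)
    refine h3.trans ?_
    rw [mul_div_assoc', div_le_div_iff₀ (by positivity) (by linarith)]
    linarith
  have h3 : (u : ℝ) ^ 2 * θ < 1 := by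
    have : δ / N < 1 := by
      rw [div_lt_one (by linarith)]; linarith
    linarith
  unfold x
  rw [h1, Int.fract_add_intCast, Int.fract_eq_self.mpr ⟨by positivity, h3⟩]
  exact h2

/-- lower bound for the correlation at `N` from one approximation `a_j/q_j` -/
lemma corr_lower' (d j L N : ℕ) (hN : 2 ≤ N) (δ c : ℝ) (hδ1 : δ ≤ 1)
    (f : (Fin d → ℝ) → ℝ) (hf0 : ∀ y, 0 ≤ f y) (hc : HasCompactSupport f)
    (hfc : ∀ y : Fin d → ℝ, (∀ i, |y i| ≤ δ) → c ≤ f y)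
    (h1 : 2 ^ P.mm j * ((d + 1) * L) ≤ N)
    (h2 : 2 * (((d + 1) * L : ℕ) : ℝ) ^ 2 * N ≤ δ * ((P.cc j : ℝ) * (P.qq j : ℝ))) :
    c * ((L : ℝ) ^ (d + 1)) / N ≤ corr d N P.alpha f := by
  classical
  set v := 2 ^ P.mm j with hv
  have hv0 : 0 < v := by positivity
  let T : Finset (Fin (d + 1) → ℕ) := Fintype.piFinset fun i : Fin (d + 1) =>
    (Finset.Icc 1 L).image (fun w => v * ((i : ℕ) * L + w))
  have hcard : T.card = L ^ (d + 1) := by
    rw [Fintype.card_piFinset]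
    have : ∀ i : Fin (d + 1),
        ((Finset.Icc 1 L).image (fun w => v * ((i : ℕ) * L + w))).card = L := by
      intro i
      rw [Finset.card_image_of_injective, Nat.card_Icc]
      · omega
      · intro a b hab
        have := Nat.eq_of_mul_eq_mul_left hv0 hab
        omega
    rw [Finset.prod_congr rfl (fun i _ => this i)]
    simp
  have hmem : ∀ n ∈ T, ∀ i : Fin (d + 1), ∃ w : ℕ, 1 ≤ w ∧ w ≤ L ∧ n i = v * ((i : ℕ) * L + w) := by
    intro n hn i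
    have := Fintype.mem_piFinset.mp hn i
    rw [Finset.mem_image] at this
    obtain ⟨w, hw, hw2⟩ := this
    rw [Finset.mem_Icc] at hw
    exact ⟨w, hw.1, hw.2, hw2.symm⟩
  have hbd : ∀ (i : Fin (d + 1)) (w : ℕ), w ≤ L → (i : ℕ) * L + w ≤ (d + 1) * L := by
    intro i w hw
    have hi : (i : ℕ) + 1 ≤ d + 1 := i.isLt
    calc (i : ℕ) * L + w ≤ (i : ℕ) * L + L := by omega
      _ = ((i : ℕ) + 1) * L := by ring
      _ ≤ (d + 1) * L := Nat.mul_le_mul_right _ hi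
  have hT : T ⊆ (Fintype.piFinset fun _ : Fin (d + 1) => Finset.Icc 1 N).filter
        (fun n => Function.Injective n) := by
    intro n hn
    rw [Finset.mem_filter, Fintype.mem_piFinset]
    constructor
    · intro i
      obtain ⟨w, hw1, hw2, hw3⟩ := hmem n hn i
      rw [Finset.mem_Icc, hw3]
      constructor
      · exact Nat.mul_pos hv0 (by omega)
      · exact (Nat.mul_le_mul_left v (hbd i w hw2)).trans h1
    · intro i i' hii
      obtain ⟨w, hw1, hw2, hw3⟩ := hmem n hn i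
      obtain ⟨w', hw1', hw2', hw3'⟩ := hmem n hn i'
      rw [hw3, hw3'] at hii
      have h4 := Nat.eq_of_mul_eq_mul_left hv0 hii
      by_contra hne
      have hne' : (i : ℕ) ≠ (i' : ℕ) := fun h => hne (Fin.ext h)
      rcases Nat.lt_or_gt_of_ne hne' with hlt | hlt
      · have : ((i : ℕ) + 1) * L ≤ (i' : ℕ) * L := Nat.mul_le_mul_right _ hlt
        rw [Nat.add_mul, one_mul] at this
        omega
      · have : ((i' : ℕ) + 1) * L ≤ (i : ℕ) * L := Nat.mul_le_mul_right _ hlt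
        rw [Nat.add_mul, one_mul] at this
        omega
  have hcl : ∀ n ∈ T, ∀ i i', |x P.alpha (n i) - x P.alpha (n i')| ≤ δ / N := by
    intro n hn i i'
    have key2 : ∀ i : Fin (d + 1), 0 ≤ x P.alpha (n i) ∧ x P.alpha (n i) ≤ δ / N := by
      intro i
      obtain ⟨w, hw1, hw2, hw3⟩ := hmem n hn i
      rw [hw3]
      apply P.x_cluster j _ N hN δ hδ1
      refine le_trans ?_ h2
      have h5 : (((i : ℕ) * L + w : ℕ) : ℝ) ≤ (((d + 1) * L : ℕ) : ℝ) := by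
        exact_mod_cast hbd i w hw2
      have h6 : (((i : ℕ) * L + w : ℕ) : ℝ) ^ 2 ≤ (((d + 1) * L : ℕ) : ℝ) ^ 2 :=
        pow_le_pow_left₀ (by positivity) h5 2
      have h7 : (0 : ℝ) ≤ N := by positivity
      nlinarith
    have h8 := key2 i
    have h9 := key2 i'
    rw [abs_le]
    constructor <;> linarith [h8.1, h8.2, h9.1, h9.2]
  have h3 := Pool.Agent.Y471.SQ3.corr_lower d N (by omega) P.alpha δ c f hf0 hc hfc T hT hcl
  rw [hcard] at h3
  push_cast at h3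
  exact h3

/-- the bound at the index `j` -/
lemma at_index (d j s : ℕ) (c : ℝ) (hc0 : 0 ≤ c)
    (f : (Fin d → ℝ) → ℝ) (hf0 : ∀ y, 0 ≤ f y) (hc : HasCompactSupport f)
    (hfc : ∀ y : Fin d → ℝ, (∀ i, |y i| ≤ 1 / 2 ^ s) → c ≤ f y)
    (l : ℕ) (hl : 3 * l + (3 * d + 1 + s) ≤ P.mm j + 2 * P.ee j) (K : ℕ)
    (hK : P.mm j + d + K ≤ d * l) :
    ∃ N : ℕ, 2 ^ P.mm j ≤ N ∧ c * 2 ^ K ≤ corr d N P.alpha f := by
  set L : ℕ := 2 ^ l with hL
  set N : ℕ := 2 ^ P.mm j * ((d + 1) * L) with hNdef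
  have hL0 : 1 ≤ L := Nat.one_le_two_pow
  have hd1 : d + 1 ≤ 2 ^ d := Nat.lt_two_pow_self
  have hmN : 2 ^ P.mm j ≤ N := by
    rw [hNdef]
    exact Nat.le_mul_of_pos_right _ (by positivity)
  have hN2 : 2 ≤ N := by
    refine le_trans ?_ hmN
    have h1 : 1 ≤ P.mm j := le_trans P.E_pos (P.E_le_mm j)
    calc 2 = 2 ^ 1 := rfl
      _ ≤ 2 ^ P.mm j := Nat.pow_le_pow_right (by norm_num) h1
  have hN3 : N ≤ 2 ^ (P.mm j + d + l) := by
    rw [hNdef, pow_add, pow_add, mul_assoc]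
    exact Nat.mul_le_mul_left _ (Nat.mul_le_mul_right _ hd1)
  refine ⟨N, hmN, ?_⟩
  have h2 : 2 * (((d + 1) * L : ℕ) : ℝ) ^ 2 * N ≤
      (1 / 2 ^ s : ℝ) * ((P.cc j : ℝ) * (P.qq j : ℝ)) := by
    have h3 : 2 * ((d + 1) * L) ^ 2 * N * 2 ^ s ≤ 2 ^ (2 * P.ee j) * 2 ^ (2 * P.mm j) := by
      have h4 : (d + 1) * L ≤ 2 ^ (d + l) := by
        rw [pow_add]
        exact Nat.mul_le_mul_right _ hd1
      calc 2 * ((d + 1) * L) ^ 2 * N * 2 ^ s
          ≤ 2 * (2 ^ (d + l)) ^ 2 * 2 ^ (P.mm j + d + l) * 2 ^ s := by gcongr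
        _ = 2 ^ (1 + 2 * (d + l) + (P.mm j + d + l) + s) := by
            ring
        _ ≤ 2 ^ (2 * P.ee j + 2 * P.mm j) := Nat.pow_le_pow_right (by norm_num) (by omega)
        _ = 2 ^ (2 * P.ee j) * 2 ^ (2 * P.mm j) := by rw [pow_add]
    have h5 : (P.cc j : ℝ) = (2 : ℝ) ^ (2 * P.ee j) := by
      unfold cc; push_cast; rw [pow_mul]; norm_num
    have h6 : (P.qq j : ℝ) = (2 : ℝ) ^ (2 * P.mm j) := by
      unfold qq; push_cast; rw [pow_mul]; norm_num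
    rw [h5, h6, one_div, inv_mul_eq_div, le_div_iff₀ (by positivity)]
    exact_mod_cast h3
  have h3 := P.corr_lower' d j L N hN2 (1 / 2 ^ s) c
    (by rw [div_le_one (by positivity)]; exact one_le_pow₀ (by norm_num)) f hf0 hc hfc le_rfl h2
  refine le_trans ?_ h3
  have hNR : (0 : ℝ) < N := by
    have : 0 < N := by omega
    exact_mod_cast this
  rw [le_div_iff₀ hNR, mul_assoc]
  refine mul_le_mul_of_nonneg_left ?_ hc0
  have h7 : 2 ^ K * N ≤ L ^ (d + 1) := by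
    calc 2 ^ K * N ≤ 2 ^ K * 2 ^ (P.mm j + d + l) := Nat.mul_le_mul_left _ hN3
      _ = 2 ^ (K + (P.mm j + d + l)) := by rw [← pow_add]
      _ ≤ 2 ^ (l * (d + 1)) := by
          apply Nat.pow_le_pow_right (by norm_num)
          have : l * (d + 1) = d * l + l := by ring
          omega
      _ = L ^ (d + 1) := by rw [hL, pow_mul]
  exact_mod_cast h7

lemma rho_mm_le_ee (j : ℕ) : P.rho * (P.mm j : ℝ) ≤ P.ee j := by
  have h := Nat.lt_floor_add_one (P.rho * (P.mm j : ℝ))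
  unfold ee
  push_cast
  have : (0 : ℝ) ≤ P.E := Nat.cast_nonneg _
  linarith

lemma index_le_mm (j : ℕ) : j ≤ P.mm j := by
  have := P.mm_strict 0 j
  simp only [add_zero] at this
  omega

/-- Divergence along a subsequence. -/
theorem unbounded (d : ℕ) (hd : 3 < d * (1 + 2 * P.rho))
    (f : (Fin d → ℝ) → ℝ) (hf : Continuous f) (hc : HasCompactSupport f)
    (hf0 : ∀ y, 0 ≤ f y) (h0 : 0 < f 0) (M : ℝ) :
    ∃ᶠ N : ℕ in atTop, M ≤ corr d N P.alpha f := by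
  -- a small box
  obtain ⟨s, hs⟩ : ∃ s : ℕ, ∀ y : Fin d → ℝ, (∀ i, |y i| ≤ 1 / 2 ^ s) → f 0 / 2 ≤ f y := by
    have h1 : ∀ᶠ y in 𝓝 (0 : Fin d → ℝ), f 0 / 2 < f y :=
      hf.continuousAt.eventually (lt_mem_nhds (by linarith))
    obtain ⟨ε, hε, h2⟩ := Metric.eventually_nhds_iff.mp h1
    obtain ⟨s, hs⟩ := exists_pow_lt_of_lt_one hε (by norm_num : (1 / 2 : ℝ) < 1)
    refine ⟨s, fun y hy => (h2 ?_).le⟩
    rw [dist_zero_right]
    have h3 : ‖y‖ ≤ 1 / 2 ^ s :=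
      (pi_norm_le_iff_of_nonneg (by positivity)).mpr (fun i => by simpa using hy i)
    rw [one_div_pow] at hs
    linarith
  obtain ⟨K, hK⟩ : ∃ K : ℕ, M ≤ f 0 / 2 * 2 ^ K := by
    obtain ⟨K, hK⟩ := pow_unbounded_of_one_lt (M / (f 0 / 2)) (by norm_num : (1 : ℝ) < 2)
    refine ⟨K, ?_⟩
    rw [div_lt_iff₀ (by linarith)] at hK
    linarith
  rw [frequently_atTop]
  intro a
  set η : ℝ := d * (1 + 2 * P.rho) - 3 with hη
  have hη0 : 0 < η := by linarith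
  obtain ⟨j0, hj0⟩ := exists_nat_gt ((d * (3 * d + 3 + s) + 3 * (d + K) : ℝ) / η)
  set j : ℕ := max (max j0 a) (3 * d + 3 + s) with hj
  have hjm := P.index_le_mm j
  set l : ℕ := (P.mm j + 2 * P.ee j - (3 * d + 1 + s)) / 3 with hl
  have hbig : 3 * d + 1 + s ≤ P.mm j + 2 * P.ee j := by omega
  have hl1 : 3 * l + (3 * d + 1 + s) ≤ P.mm j + 2 * P.ee j := by omega
  have hl2 : P.mm j + 2 * P.ee j ≤ 3 * l + (3 * d + 3 + s) := by omega
  have hl3 : P.mm j + d + K ≤ d * l := by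
    have h1 : (P.mm j : ℝ) + 2 * P.ee j ≤ 3 * l + (3 * d + 3 + s) := by exact_mod_cast hl2
    have h2 := P.rho_mm_le_ee j
    have h3 : (P.mm j : ℝ) * (1 + 2 * P.rho) ≤ 3 * l + (3 * d + 3 + s) := by linarith
    have h4 : (d : ℝ) * ((P.mm j : ℝ) * (1 + 2 * P.rho)) ≤ d * (3 * l + (3 * d + 3 + s)) :=
      mul_le_mul_of_nonneg_left h3 (Nat.cast_nonneg _)
    have h5 : (j0 : ℝ) ≤ P.mm j := by
      have : j0 ≤ P.mm j := le_trans (le_trans (le_max_left _ _) (le_max_left _ _)) hjm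
      exact_mod_cast this
    have h6 : (d * (3 * d + 3 + s) + 3 * (d + K) : ℝ) ≤ η * P.mm j := by
      rw [div_lt_iff₀ hη0] at hj0
      have h7 := mul_le_mul_of_nonneg_left h5 hη0.le
      linarith
    have h7 : (3 : ℝ) * (P.mm j + d + K) ≤ 3 * (d * l) := by
      have h8 : (d : ℝ) * ((P.mm j : ℝ) * (1 + 2 * P.rho)) = 3 * P.mm j + η * P.mm j := by
        rw [hη]; ring
      rw [h8] at h4
      have h9 : (d : ℝ) * (3 * l + (3 * d + 3 + s)) = 3 * (d * l) + d * (3 * d + 3 + s) := by ring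
      rw [h9] at h4
      linarith
    have h8 : ((P.mm j + d + K : ℕ) : ℝ) ≤ ((d * l : ℕ) : ℝ) := by
      push_cast
      linarith
    exact_mod_cast h8
  obtain ⟨N, hN1, hN2⟩ := P.at_index d j s (f 0 / 2) (by linarith) f hf0 hc hs l hl1 K hl3
  refine ⟨N, ?_, hK.trans hN2⟩
  have h1 : a ≤ P.mm j := le_trans (le_trans (le_max_right _ _) (le_max_left _ _)) hjm
  have h2 : P.mm j < 2 ^ P.mm j := Nat.lt_two_pow_self
  omega

end Par

end Pool.Agent.H364_TC
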